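import Pool.Agent.Lib.GoldbachGraph.Core
import Pool.Agent.Lib.GoldbachGraph.Packing
import Pool.Agent.Lib.Goldbach.Defs

/-!
# Almost all edges of the Goldbach graphs lie in boundedly many pieces of bounded diameter

For every `δ > 0` there is a constant `C` such that, for all large `n`, the finite Goldbach graph
`G_n` (and likewise the near Goldbach graph `G(n)`) has a subgraph containing at least a
proportion `1 - δ` of the edges, all of whose components have diameter at most `C`, and with at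
most `C` nontrivial components, each containing at least `n / C` vertices.

The proof uses a Brun-Hooley upper bound sieve, Chebyshev's lower bound for the number of primes,
and a moment argument.
-/

namespace Pool.Agent.Results.MP_443e5f_co.AlmostAllEdges

open Finset Filter Pool.Agent.Goldbach Pool.Agent.Lib.GoldbachGraph

/-- The subgraph of a Goldbach type graph given by a set `S` of halved vertices. -/
def coreGraph (V : Set ℕ) (S : Finset ℕ) : SimpleGraph V where
  Adj a b := (a : ℕ) / 2 ∈ S ∧ (b : ℕ) / 2 ∈ S ∧ hadj ((a : ℕ) / 2) ((b : ℕ) / 2)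
  symm := ⟨fun _ _ h => ⟨h.2.1, h.1, (hadj_comm _ _).mp h.2.2⟩⟩
  loopless := ⟨fun _ h => hadj_irrefl _ h.2.2⟩

theorem npairs_eq_card (S : Finset ℕ) :
    npairs hadj S = ((S ×ˢ S).filter fun q => hadj q.1 q.2).card := by
  unfold npairs
  rw [Finset.card_filter, Finset.sum_product]
  refine Finset.sum_congr rfl fun x _ => ?_
  rw [Finset.card_filter]

section

variable {V : Set ℕ} {n : ℕ}

theorem finite_of_le (hV : ∀ a ∈ V, Even a ∧ a ≤ 2 * n) : V.Finite :=
  (Set.finite_Iic (2 * n)).subset fun a ha => (hV a ha).2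

theorem card_le (hV : ∀ a ∈ V, Even a ∧ a ≤ 2 * n) : Nat.card V ≤ n + 1 := by
  have hfin := finite_of_le hV
  have : V ⊆ ((Finset.range (n + 1)).image fun x => 2 * x : Finset ℕ) := by
    intro a ha
    obtain ⟨⟨r, hr⟩, hle⟩ := hV a ha
    simp only [Finset.coe_image, Set.mem_image, Finset.coe_range, Set.mem_Iio]
    exact ⟨r, by omega, by omega⟩
  rw [Nat.card_coe_set_eq]
  refine (Set.ncard_le_ncard this (Finset.finite_toSet _)).trans ?_
  rw [Set.ncard_coe_finset]
  exact (Finset.card_image_le).trans (by simp)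

/-- Ordered adjacent pairs of the core graph. -/
theorem pairs_core (hV : ∀ a ∈ V, Even a ∧ a ≤ 2 * n) (hV2 : ∀ x ∈ Finset.Icc 1 n, 2 * x ∈ V)
    {S : Finset ℕ} (hS : S ⊆ Finset.Icc 1 n) :
    npairs hadj S ≤ {p : V × V | (coreGraph V S).Adj p.1 p.2}.ncard := by
  have : Finite V := finite_of_le hV
  rw [npairs_eq_card, ← Set.ncard_coe_finset]
  have hsub : (((S ×ˢ S).filter fun q : ℕ × ℕ => hadj q.1 q.2 : Finset (ℕ × ℕ)) : Set (ℕ × ℕ)) ⊆
      (fun p : V × V => ((p.1 : ℕ) / 2, (p.2 : ℕ) / 2)) ''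
        {p : V × V | (coreGraph V S).Adj p.1 p.2} := by
    rintro ⟨x, y⟩ hxy
    simp only [Finset.coe_filter, Finset.mem_product, Set.mem_ofPred_eq] at hxy
    obtain ⟨⟨hx, hy⟩, hadj'⟩ := hxy
    refine ⟨(⟨2 * x, hV2 x (hS hx)⟩, ⟨2 * y, hV2 y (hS hy)⟩), ?_, ?_⟩
    · show _ ∧ _ ∧ _
      simp only [Nat.mul_div_cancel_left _ (by norm_num : 0 < 2)]
      exact ⟨hx, hy, hadj'⟩
    · simp
  exact (Set.ncard_le_ncard hsub ((Set.toFinite _).image _)).trans
    (Set.ncard_image_le (Set.toFinite _))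

/-- The core graph is a subgraph. -/
theorem core_le {S' : Set ℕ} (hV : ∀ a ∈ V, Even a ∧ a ≤ 2 * n)
    (hS' : ∀ m, m.Prime → Odd m → m < 2 * n → m ∈ S') {S : Finset ℕ} (hS : S ⊆ Finset.Icc 1 n) :
    coreGraph V S ≤ halfGraph V S' := by
  intro a b h
  obtain ⟨ha, hb, h1, h2, h3, h4⟩ := h
  obtain ⟨r, hr⟩ := (hV a a.2).1
  obtain ⟨s, hs⟩ := (hV b b.2).1
  have har : (a : ℕ) = 2 * r := by omega
  have hbs : (b : ℕ) = 2 * s := by omega
  rw [halfGraph_adj_iff har hbs]
  have ea : (a : ℕ) / 2 = r := by omega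
  have eb : (b : ℕ) / 2 = s := by omega
  rw [ea, eb] at h1 h2 h3 h4
  rw [ea] at ha
  rw [eb] at hb
  have ha' := Finset.mem_Icc.mp (hS ha)
  have hb' := Finset.mem_Icc.mp (hS hb)
  have hne : r ≠ s := by
    rintro rfl
    rw [Nat.dist_self] at h3
    exact Nat.not_prime_zero h3
  have hd : ((r : ℤ) - s).natAbs = Nat.dist r s := by
    unfold Nat.dist
    omega
  refine ⟨hne, hS' _ h1 h2 (by omega), ?_⟩
  rw [hd]
  refine hS' _ h3 h4 ?_
  unfold Nat.dist
  omega

/-- Upper bound for the number of ordered adjacent pairs of the whole graph. -/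
theorem pairs_le {S' : Set ℕ} (hV : ∀ a ∈ V, Even a ∧ a ≤ 2 * n)
    (hS' : ∀ m ∈ S', m = 1 ∨ (m.Prime ∧ Odd m)) :
    {p : V × V | (halfGraph V S').Adj p.1 p.2}.ncard
      ≤ npairs hadj (Finset.Icc 1 n) + 4 * (n + 1) := by
  have : Finite V := finite_of_le hV
  set I := Finset.range (n + 1) with hI
  set T : Finset (ℕ × ℕ) := ((Finset.Icc 1 n ×ˢ Finset.Icc 1 n).filter fun q => hadj q.1 q.2) ∪
    ((I.image fun x => (0, x)) ∪ ((I.image fun x => (x, 0)) ∪
      ((I.image fun x => (x, x + 1)) ∪ (I.image fun x => (x + 1, x))))) with hT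
  have hTcard : T.card ≤ npairs hadj (Finset.Icc 1 n) + 4 * (n + 1) := by
    rw [npairs_eq_card]
    refine (Finset.card_union_le _ _).trans (Nat.add_le_add_left ?_ _)
    have hi : ∀ f : ℕ → ℕ × ℕ, (I.image f).card ≤ n + 1 := fun f =>
      (Finset.card_image_le).trans (by rw [hI, Finset.card_range])
    refine (Finset.card_union_le _ _).trans ?_
    have h1 := hi fun x => (0, x)
    have h2 := hi fun x => (x, 0)
    have h3 := hi fun x => (x, x + 1)
    have h4 := hi fun x => (x + 1, x)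
    have h5 := Finset.card_union_le (I.image fun x => (x, 0))
      ((I.image fun x => (x, x + 1)) ∪ (I.image fun x => (x + 1, x)))
    have h6 := Finset.card_union_le (I.image fun x => (x, x + 1)) (I.image fun x => (x + 1, x))
    omega
  refine le_trans ?_ hTcard
  rw [← Set.ncard_coe_finset]
  apply Set.ncard_le_ncard_of_injOn (fun p : V × V => ((p.1 : ℕ) / 2, (p.2 : ℕ) / 2))
  · rintro ⟨a, b⟩ hab
    change (halfGraph V S').Adj a b at hab
    obtain ⟨⟨r, hr⟩, ha2⟩ := hV a a.2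
    obtain ⟨⟨s, hs⟩, hb2⟩ := hV b b.2
    have har : (a : ℕ) = 2 * r := by omega
    have hbs : (b : ℕ) = 2 * s := by omega
    rw [halfGraph_adj_iff har hbs] at hab
    obtain ⟨hne, h1, h2⟩ := hab
    have ea : (a : ℕ) / 2 = r := by omega
    have eb : (b : ℕ) / 2 = s := by omega
    have hd : ((r : ℤ) - s).natAbs = Nat.dist r s := by
      unfold Nat.dist
      omega
    rw [hd] at h2
    have hr2 : r ≤ n := by omega
    have hs2 : s ≤ n := by omega
    simp only [ea, eb, hT, Finset.mem_coe, Finset.mem_union, Finset.mem_filter,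
      Finset.mem_product, Finset.mem_Icc, Finset.mem_image, hI, Finset.mem_range, Prod.mk.injEq]
    by_cases hr0 : r = 0
    · right; left
      exact ⟨s, by omega, by omega, rfl⟩
    by_cases hs0 : s = 0
    · right; right; left
      exact ⟨r, by omega, rfl, by omega⟩
    rcases hS' _ h2 with h3 | h3
    · -- difference one
      unfold Nat.dist at h3
      rcases Nat.lt_or_gt_of_ne hne with hlt | hlt
      · right; right; right; left
        exact ⟨r, by omega, rfl, by omega⟩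
      · right; right; right; right
        exact ⟨s, by omega, by omega, rfl⟩
    · rcases hS' _ h1 with h4 | h4
      · omega
      · left
        exact ⟨⟨⟨by omega, hr2⟩, ⟨by omega, hs2⟩⟩, h4.1, h4.2, h3.1, h3.2⟩
  · rintro ⟨a, b⟩ _ ⟨a', b'⟩ _ h
    simp only [Prod.mk.injEq] at h
    obtain ⟨r, hr⟩ := (hV a a.2).1
    obtain ⟨s, hs⟩ := (hV b b.2).1
    obtain ⟨r', hr'⟩ := (hV a' a'.2).1
    obtain ⟨s', hs'⟩ := (hV b' b'.2).1
    rw [Prod.mk.injEq]
    exact ⟨Subtype.ext (by omega), Subtype.ext (by omega)⟩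

/-- Balls of radius two in the core graph. -/
theorem ball_ge (hV : ∀ a ∈ V, Even a ∧ a ≤ 2 * n) (hV2 : ∀ x ∈ Finset.Icc 1 n, 2 * x ∈ V)
    {S : Finset ℕ} (hS : S ⊆ Finset.Icc 1 n) {m : ℝ} (hm : ∀ x ∈ S, m ≤ ((ball2 S x).card : ℝ))
    (a : V) (ha : ∃ b, (coreGraph V S).Adj a b) :
    m ≤ ({w | (coreGraph V S).edist a w ≤ 2}.ncard : ℝ) := by
  have : Finite V := finite_of_le hV
  obtain ⟨b, hab⟩ := ha
  have haS : (a : ℕ) / 2 ∈ S := hab.1
  refine (hm _ haS).trans ?_
  rw [← Set.ncard_coe_finset]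
  have hsub : ((ball2 S ((a : ℕ) / 2) : Finset ℕ) : Set ℕ) ⊆
      (fun w : V => (w : ℕ) / 2) '' {w | (coreGraph V S).edist a w ≤ 2} := by
    intro x hx
    unfold ball2 at hx
    rw [Finset.mem_coe, Finset.mem_filter] at hx
    obtain ⟨hxS, u, huS, hau, hux⟩ := hx
    refine ⟨⟨2 * x, hV2 x (hS hxS)⟩, ?_, by simp⟩
    have h1 : (coreGraph V S).Adj a ⟨2 * u, hV2 u (hS huS)⟩ := by
      show _ ∧ _ ∧ _
      simp only [Nat.mul_div_cancel_left _ (by norm_num : 0 < 2)]
      exact ⟨haS, huS, hau⟩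
    have h2 : (coreGraph V S).Adj ⟨2 * u, hV2 u (hS huS)⟩ ⟨2 * x, hV2 x (hS hxS)⟩ := by
      show _ ∧ _ ∧ _
      simp only [Nat.mul_div_cancel_left _ (by norm_num : 0 < 2)]
      exact ⟨huS, hxS, hux⟩
    have h3 := (SimpleGraph.Walk.cons h1 (SimpleGraph.Walk.cons h2 SimpleGraph.Walk.nil)).edist_le
    exact h3
  have h4 := (Set.ncard_le_ncard hsub ((Set.toFinite _).image _)).trans
    (Set.ncard_image_le (Set.toFinite _))
  exact_mod_cast h4

end

/-- The structure theorem for all Goldbach type graphs at once. -/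
theorem main (δ : ℝ) (hδ : 0 < δ) : ∃ C : ℕ, ∃ N : ℕ, ∀ n ≥ N, ∀ V S' : Set ℕ,
    (∀ a ∈ V, Even a ∧ a ≤ 2 * n) → (∀ x ∈ Finset.Icc 1 n, 2 * x ∈ V) →
    (∀ m, m.Prime → Odd m → m < 2 * n → m ∈ S') →
    (∀ m ∈ S', m = 1 ∨ (m.Prime ∧ Odd m)) →
    ∃ H ≤ halfGraph V S',
      (1 - δ) * ((halfGraph V S').edgeSet.ncard : ℝ) ≤ H.edgeSet.ncard ∧
      (∀ a b, H.Reachable a b → H.dist a b ≤ C) ∧
      {c : H.ConnectedComponent | c.supp.Nontrivial}.ncard ≤ C ∧
      ∀ c : H.ConnectedComponent, c.supp.Nontrivial → n ≤ C * c.supp.ncard := by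
  obtain ⟨c, hc, hcore⟩ := eventually_core δ hδ
  have hlog : ∀ᶠ n : ℕ in atTop, (Real.log n) ^ 2 ≤ δ / 512 * n := by
    have h1 := (Real.isLittleO_pow_log_id_atTop (n := 2)).bound (c := δ / 512) (by positivity)
    have h2 := (tendsto_natCast_atTop_atTop (R := ℝ)).eventually h1
    filter_upwards [h2] with n hn
    rw [Real.norm_of_nonneg (by positivity)] at hn
    simpa using hn
  obtain ⟨N, hN⟩ := eventually_atTop.mp
    (hcore.and (hlog.and (eventually_sum_hdeg.and (eventually_ge_atTop 3))))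
  refine ⟨⌈10 / c⌉₊, N, ?_⟩
  intro n hn V S' hV hV2 hS1 hS2
  obtain ⟨⟨S, hS, hpairs, hball⟩, hlogn2, hsum, hn3⟩ := hN n hn
  have hfin : Finite V := finite_of_le hV
  have hn0 : (0 : ℝ) < n := by
    have : 0 < n := by omega
    exact_mod_cast this
  have hn1 : (1 : ℝ) ≤ n := by
    have : 1 ≤ n := by omega
    exact_mod_cast this
  have hlogn : 0 < Real.log n := by
    apply Real.log_pos
    have : 1 < n := by omega
    exact_mod_cast this
  have hm : 0 < c * n := by positivity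
  have hballG := fun a ha => ball_ge hV hV2 hS hball a ha
  have hcardV : (Nat.card V : ℝ) ≤ 2 * n := by
    have h1 := card_le hV
    have h2 : (Nat.card V : ℝ) ≤ n + 1 := by exact_mod_cast h1
    linarith
  have hceil : 10 / c ≤ (⌈10 / c⌉₊ : ℝ) := Nat.le_ceil _
  have hceil' : 10 ≤ (⌈10 / c⌉₊ : ℝ) * c := by
    rwa [div_le_iff₀ hc] at hceil
  refine ⟨coreGraph V S, core_le hV hS1 hS, ?_, ?_, ?_, ?_⟩
  · -- number of edges
    have e1 := two_mul_edges (halfGraph V S')
    have e2 := two_mul_edges (coreGraph V S)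
    have h1 := pairs_le hV hS2
    have h2 := pairs_core hV hV2 hS
    rw [e1] at h1
    rw [e2] at h2
    have h1' : 2 * ((halfGraph V S').edgeSet.ncard : ℝ)
        ≤ npairs hadj (Finset.Icc 1 n) + 4 * (n + 1) := by exact_mod_cast h1
    have h2' : (npairs hadj S : ℝ) ≤ 2 * ((coreGraph V S).edgeSet.ncard : ℝ) := by
      exact_mod_cast h2
    have h3 : (n : ℝ) ^ 2 / (32 * (Real.log n) ^ 2) ≤ npairs hadj (Finset.Icc 1 n) := by
      rw [npairs_Icc]
      push_cast
      exact hsum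
    have h4 : 4 * ((n : ℝ) + 1) ≤ δ / 2 * ((n : ℝ) ^ 2 / (32 * (Real.log n) ^ 2)) := by
      have h5 : δ / 2 * ((n : ℝ) ^ 2 / (32 * (Real.log n) ^ 2))
          = δ * (n : ℝ) ^ 2 / (64 * (Real.log n) ^ 2) := by
        field_simp
        norm_num
      rw [h5, le_div_iff₀ (by positivity)]
      have h6 : 4 * ((n : ℝ) + 1) ≤ 8 * n := by linarith
      calc 4 * ((n : ℝ) + 1) * (64 * (Real.log n) ^ 2)
          ≤ 8 * n * (64 * (δ / 512 * n)) := by
            apply mul_le_mul h6 _ (by positivity) (by positivity)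
            linarith
        _ = δ * (n : ℝ) ^ 2 := by ring
    by_cases hδ1 : δ ≤ 1
    · have h5 : (1 - δ) * (2 * ((halfGraph V S').edgeSet.ncard : ℝ))
          ≤ (1 - δ) * (npairs hadj (Finset.Icc 1 n) + 4 * (n + 1)) :=
        mul_le_mul_of_nonneg_left h1' (by linarith)
      have h6 : δ * ((n : ℝ) ^ 2 / (32 * (Real.log n) ^ 2)) ≤ δ * npairs hadj (Finset.Icc 1 n) :=
        mul_le_mul_of_nonneg_left h3 hδ.le
      have h7 : 0 ≤ δ * (4 * ((n : ℝ) + 1)) := by positivity
      linarith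
    · have h5 : (0 : ℝ) ≤ (halfGraph V S').edgeSet.ncard := Nat.cast_nonneg _
      have h6 : (0 : ℝ) ≤ (coreGraph V S).edgeSet.ncard := Nat.cast_nonneg _
      have h7 : (1 - δ) * ((halfGraph V S').edgeSet.ncard : ℝ) ≤ 0 :=
        mul_nonpos_of_nonpos_of_nonneg (by linarith) h5
      linarith
  · -- diameter
    intro a b hab
    have h1 := dist_bound hm hballG hab
    have h2 : ((coreGraph V S).dist a b : ℝ) * (c * n) ≤ (⌈10 / c⌉₊ : ℝ) * (c * n) := by
      have h3 : (10 : ℝ) * n ≤ (⌈10 / c⌉₊ : ℝ) * c * n := mul_le_mul_of_nonneg_right hceil' hn0.le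
      calc ((coreGraph V S).dist a b : ℝ) * (c * n) ≤ 5 * Nat.card V := h1
        _ ≤ 10 * n := by linarith
        _ ≤ (⌈10 / c⌉₊ : ℝ) * (c * n) := by linarith
    have h3 := le_of_mul_le_mul_right h2 hm
    exact_mod_cast h3
  · -- number of components
    have h1 := card_components hballG
    have h2 : ({c : (coreGraph V S).ConnectedComponent | c.supp.Nontrivial}.ncard : ℝ) * (c * n)
        ≤ (⌈10 / c⌉₊ : ℝ) * (c * n) := by
      have h3 : (10 : ℝ) * n ≤ (⌈10 / c⌉₊ : ℝ) * c * n := mul_le_mul_of_nonneg_right hceil' hn0.le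
      calc ({c : (coreGraph V S).ConnectedComponent | c.supp.Nontrivial}.ncard : ℝ) * (c * n)
          ≤ Nat.card V := h1
        _ ≤ 10 * n := by linarith
        _ ≤ (⌈10 / c⌉₊ : ℝ) * (c * n) := by linarith
    have h3 := le_of_mul_le_mul_right h2 hm
    exact_mod_cast h3
  · intro cc hcc
    have h1 := component_large hballG hcc
    have h2 : (n : ℝ) ≤ (⌈10 / c⌉₊ : ℝ) * cc.supp.ncard := by
      have h3 : (10 : ℝ) * n ≤ (⌈10 / c⌉₊ : ℝ) * c * n := mul_le_mul_of_nonneg_right hceil' hn0.le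
      have h4 : (⌈10 / c⌉₊ : ℝ) * (c * n) ≤ (⌈10 / c⌉₊ : ℝ) * cc.supp.ncard :=
        mul_le_mul_of_nonneg_left h1 (Nat.cast_nonneg _)
      linarith
    exact_mod_cast h2

/-- **Bounded diameter up to a small proportion of the edges.**  For every `δ > 0` there are
constants `C` and `N` such that for every `n ≥ N` the following holds for the finite Goldbach
graph `G_n` and for the near Goldbach graph `G(n)`: there is a subgraph `H` (on the same vertex
set) with at least `(1 - δ)` times as many edges, such that any two vertices in the same component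
of `H` are at distance at most `C` in `H`, and `H` has at most `C` components with more than one
vertex, each of which contains at least `n / C` vertices. -/
theorem result (δ : ℝ) (hδ : 0 < δ) : ∃ C : ℕ, ∃ N : ℕ, ∀ n ≥ N,
    (∃ H ≤ goldbachGraph n,
      (1 - δ) * ((goldbachGraph n).edgeSet.ncard : ℝ) ≤ H.edgeSet.ncard ∧
      (∀ a b, H.Reachable a b → H.dist a b ≤ C) ∧
      {c : H.ConnectedComponent | c.supp.Nontrivial}.ncard ≤ C ∧
      ∀ c : H.ConnectedComponent, c.supp.Nontrivial → n ≤ C * c.supp.ncard) ∧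
    (∃ H ≤ nearGoldbachGraph n,
      (1 - δ) * ((nearGoldbachGraph n).edgeSet.ncard : ℝ) ≤ H.edgeSet.ncard ∧
      (∀ a b, H.Reachable a b → H.dist a b ≤ C) ∧
      {c : H.ConnectedComponent | c.supp.Nontrivial}.ncard ≤ C ∧
      ∀ c : H.ConnectedComponent, c.supp.Nontrivial → n ≤ C * c.supp.ncard) := by
  obtain ⟨C, N, h⟩ := main δ hδ
  refine ⟨C, N, fun n hn => ⟨?_, ?_⟩⟩
  · apply h n hn (goldbachVertices n) {p | p.Prime ∧ Odd p ∧ p < 2 * n}
    · intro a ha
      exact ha
    · intro x hx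
      rw [Finset.mem_Icc] at hx
      exact ⟨even_two_mul x, by omega⟩
    · intro m h1 h2 h3
      exact ⟨h1, h2, h3⟩
    · intro m hm
      exact Or.inr ⟨hm.1, hm.2.1⟩
  · apply h n hn (evenVertices n) ({1} ∪ {p | p.Prime ∧ Odd p ∧ p < 2 * n})
    · intro a ha
      exact ⟨ha.1, ha.2.2⟩
    · intro x hx
      rw [Finset.mem_Icc] at hx
      exact ⟨even_two_mul x, by omega, by omega⟩
    · intro m h1 h2 h3
      exact Or.inr ⟨h1, h2, h3⟩
    · intro m hm
      rcases hm with hm | hm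
      · exact Or.inl hm
      · exact Or.inr ⟨hm.1, hm.2.1⟩

end Pool.Agent.Results.MP_443e5f_co.AlmostAllEdges
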