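import Pool.Agent.Lib.H18GB.Transfer
import Pool.Agent.Lib.H18GB.TY3
import Pool.Agent.Lib.Goldbach.FivePairs

/-!
# Almost all pairs of vertices are at distance at most five, and this is sharp

For both families of graphs of problem `MP_443e5f_co` and every `ε > 0`, if `n` is large then at
most `ε n ^ 2` ordered pairs of vertices are at distance greater than `5`, and at least
`(52/225 - ε) n ^ 2` ordered pairs are at distance exactly `5`.
-/

namespace Pool.Agent.Results.MP_443e5f_co.TypicalDistanceFive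

open Finset Filter Pool.Agent.Goldbach Pool.Agent.Lib.GoldbachGraph Pool.Agent.Lib.H18GB

/-- few pairs are at distance greater than `5` -/
theorem few_pairs (ε : ℝ) (hε : 0 < ε) : ∃ n0 : ℕ, ∀ n ≥ n0, ∀ V S : Set ℕ,
    (∀ a ∈ V, Even a ∧ a ≤ 2 * n) → (∀ x ∈ Finset.Icc 1 n, 2 * x ∈ V) →
    (∀ m, m.Prime → Odd m → m < 2 * n → m ∈ S) →
    ({p : V × V | 5 < (halfGraph V S).edist p.1 p.2}.ncard : ℝ) ≤ ε * n ^ 2 := by
  obtain ⟨n1, h3⟩ := ty3 (ε / 2) (by positivity)
  obtain ⟨n2, h4⟩ := exists_nat_gt (8 / ε)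
  refine ⟨max n1 (max n2 1), fun n hn V S hV hV2 hS => ?_⟩
  have hn1 : n1 ≤ n := le_trans (le_max_left _ _) hn
  have hn2 : n2 ≤ n := le_trans (le_max_left _ _) (le_trans (le_max_right _ _) hn)
  have hn3 : 1 ≤ n := le_trans (le_max_right _ _) (le_trans (le_max_right _ _) hn)
  have h5 := h3 n hn1
  have : Finite V := finite_of_le hV
  classical
  set B : Finset (ℕ × ℕ) := ((Finset.Icc 1 n ×ˢ Finset.Icc 1 n).filter fun q =>
    ¬ (HG n).edist q.1 q.2 ≤ 5) ∪ (({0} ×ˢ Finset.range (n + 1)) ∪ (Finset.range (n + 1) ×ˢ {0}))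
    with hB
  have h6 : {p : V × V | 5 < (halfGraph V S).edist p.1 p.2}.ncard ≤ B.card := by
    rw [← Set.ncard_coe_finset]
    apply Set.ncard_le_ncard_of_injOn (fun p : V × V => ((p.1 : ℕ) / 2, (p.2 : ℕ) / 2))
    · rintro ⟨⟨a, ha⟩, ⟨b, hb⟩⟩ hab
      obtain ⟨⟨x, hx⟩, han⟩ := hV a ha
      obtain ⟨⟨y, hy⟩, hbn⟩ := hV b hb
      have hax : a = 2 * x := by omega
      have hby : b = 2 * y := by omega
      subst hax hby
      simp only [Set.mem_ofPred_eq] at hab
      simp only [Nat.mul_div_cancel_left _ (by norm_num : 0 < 2)]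
      rw [Finset.mem_coe, hB]
      simp only [Finset.mem_union, Finset.mem_filter, Finset.mem_product, Finset.mem_singleton,
        Finset.mem_range]
      by_cases hx0 : x = 0
      · exact Or.inr (Or.inl ⟨hx0, by omega⟩)
      by_cases hy0 : y = 0
      · exact Or.inr (Or.inr ⟨by omega, hy0⟩)
      left
      have hx1 : x ∈ Finset.Icc 1 n := Finset.mem_Icc.mpr ⟨by omega, by omega⟩
      have hy1 : y ∈ Finset.Icc 1 n := Finset.mem_Icc.mpr ⟨by omega, by omega⟩
      refine ⟨⟨hx1, hy1⟩, fun h7 => ?_⟩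
      exact absurd (edist_transfer hV2 hS hx1 hy1 (k := 5) h7) (not_le.mpr hab)
    · rintro ⟨⟨a, ha⟩, ⟨b, hb⟩⟩ - ⟨⟨a', ha'⟩, ⟨b', hb'⟩⟩ - hab
      have h1 := (hV a ha).1
      have h2 := (hV b hb).1
      have h3 := (hV a' ha').1
      have h4 := (hV b' hb').1
      simp only [Prod.mk.injEq] at hab
      obtain ⟨k1, e1⟩ := h1
      obtain ⟨k2, e2⟩ := h2
      obtain ⟨k3, e3⟩ := h3
      obtain ⟨k4, e4⟩ := h4
      ext
      · simp only
        omega
      · simp only
        omega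
  have h7 : B.card ≤ ((Finset.Icc 1 n ×ˢ Finset.Icc 1 n).filter fun q =>
    ¬ (HG n).edist q.1 q.2 ≤ 5).card + 2 * (n + 1) := by
    refine (Finset.card_union_le _ _).trans (Nat.add_le_add_left ?_ _)
    refine (Finset.card_union_le _ _).trans ?_
    rw [Finset.card_product, Finset.card_product, Finset.card_range, Finset.card_singleton]
    omega
  have h8 : ({p : V × V | 5 < (halfGraph V S).edist p.1 p.2}.ncard : ℝ) ≤
      (((Finset.Icc 1 n ×ˢ Finset.Icc 1 n).filter fun q =>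
        ¬ (HG n).edist q.1 q.2 ≤ 5).card : ℝ) + 2 * (n + 1) := by
    exact_mod_cast h6.trans h7
  have h9 : (1 : ℝ) ≤ n := by exact_mod_cast hn3
  have h10 : 8 < ε * n := by
    have : 8 / ε < (n : ℝ) := lt_of_lt_of_le h4 (by exact_mod_cast hn2)
    rw [div_lt_iff₀ hε] at this
    linarith
  have h11 : 2 * ((n : ℝ) + 1) ≤ ε / 2 * n ^ 2 := by nlinarith
  have h12 : (((Finset.Icc 1 n ×ˢ Finset.Icc 1 n).filter fun q =>
        ¬ (HG n).edist q.1 q.2 ≤ 5).card : ℝ) ≤ ε / 2 * n ^ 2 := by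
    convert h5
  linarith

/-- the number of pairs at distance exactly `5` -/
theorem exactly {V : Type*} [Finite V] (G : SimpleGraph V) {a b : ℝ}
    (h1 : ({p : V × V | 5 < G.edist p.1 p.2}.ncard : ℝ) ≤ a)
    (h2 : b ≤ ({p : V × V | 5 ≤ G.edist p.1 p.2}.ncard : ℝ)) :
    b - a ≤ ({p : V × V | G.edist p.1 p.2 = 5}.ncard : ℝ) := by
  have h3 : {p : V × V | 5 ≤ G.edist p.1 p.2} ⊆
      {p : V × V | G.edist p.1 p.2 = 5} ∪ {p : V × V | 5 < G.edist p.1 p.2} := by
    intro p hp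
    have hp' : 5 ≤ G.edist p.1 p.2 := hp
    rcases (le_iff_eq_or_lt.mp hp') with h | h
    · exact Or.inl h.symm
    · exact Or.inr h
  have h4 := (Set.ncard_le_ncard h3 (Set.toFinite _)).trans (Set.ncard_union_le _ _)
  have h5 : ({p : V × V | 5 ≤ G.edist p.1 p.2}.ncard : ℝ) ≤
      {p : V × V | G.edist p.1 p.2 = 5}.ncard + {p : V × V | 5 < G.edist p.1 p.2}.ncard := by
    exact_mod_cast h4
  linarith

/-- For every `ε > 0` and all large `n`, in the finite Goldbach graph `G_n` and in the near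
Goldbach graph `G(n)`, at most `ε n²` ordered pairs of vertices are at distance greater than `5`
(or infinite), and at least `(52/225 - ε) n²` ordered pairs are at distance exactly `5`. -/
theorem result (ε : ℝ) (hε : 0 < ε) : ∃ N : ℕ, ∀ n ≥ N,
    (({p : goldbachVertices n × goldbachVertices n |
        5 < (goldbachGraph n).edist p.1 p.2}.ncard : ℝ) ≤ ε * (n : ℝ) ^ 2 ∧
      (52 / 225 - ε) * (n : ℝ) ^ 2 ≤ {p : goldbachVertices n × goldbachVertices n |
        (goldbachGraph n).edist p.1 p.2 = 5}.ncard) ∧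
    (({p : evenVertices n × evenVertices n |
        5 < (nearGoldbachGraph n).edist p.1 p.2}.ncard : ℝ) ≤ ε * (n : ℝ) ^ 2 ∧
      (52 / 225 - ε) * (n : ℝ) ^ 2 ≤ {p : evenVertices n × evenVertices n |
        (nearGoldbachGraph n).edist p.1 p.2 = 5}.ncard) := by
  obtain ⟨n1, h1⟩ := few_pairs (ε / 2) (by positivity)
  obtain ⟨n2, h2⟩ := Pool.Agent.Lib.Goldbach.FivePairs.five_pairs (ε / 2) (by positivity)
  refine ⟨max n1 n2, fun n hn => ?_⟩
  have hn1 : n1 ≤ n := le_trans (le_max_left _ _) hn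
  have hn2 : n2 ≤ n := le_trans (le_max_right _ _) hn
  obtain ⟨h3, h4⟩ := h2 n hn2
  have hG := h1 n hn1 (goldbachVertices n) {p | p.Prime ∧ Odd p ∧ p < 2 * n}
    (fun a ha => ha)
    (fun x hx => by
      rw [Finset.mem_Icc] at hx
      exact ⟨even_two_mul x, by omega⟩)
    (fun m h1 h2 h3 => ⟨h1, h2, h3⟩)
  have hH := h1 n hn1 (evenVertices n) ({1} ∪ {p | p.Prime ∧ Odd p ∧ p < 2 * n})
    (fun a ha => ⟨ha.1, ha.2.2⟩)
    (fun x hx => by
      rw [Finset.mem_Icc] at hx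
      exact ⟨even_two_mul x, by omega, by omega⟩)
    (fun m h1 h2 h3 => Or.inr ⟨h1, h2, h3⟩)
  have f1 : Finite (goldbachVertices n) :=
    (Set.finite_Iic (2 * n)).subset fun a ha => ha.2
  have f2 : Finite (evenVertices n) :=
    (Set.finite_Iic (2 * n)).subset fun a ha => ha.2.2
  have hsq : (0 : ℝ) ≤ (n : ℝ) ^ 2 := sq_nonneg _
  refine ⟨⟨hG.trans (by nlinarith), ?_⟩, ⟨hH.trans (by nlinarith), ?_⟩⟩
  · refine le_trans (le_of_eq ?_) (exactly (goldbachGraph n) hG h3)
    ring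
  · refine le_trans (le_of_eq ?_) (exactly (nearGoldbachGraph n) hH h4)
    ring

end Pool.Agent.Results.MP_443e5f_co.TypicalDistanceFive
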